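import Pool.Agent.W5h80.Bil.ML

/-!
# The Möbius function and shifted primes: almost all shifts which are bilinear in the members of two thin families of
lattice points

The exponential sum bound for the Möbius function (Davenport's theorem with arbitrary powers of the logarithm) is from
the starting files (`Pool.Agent.H807R2.Dav`, `Pool.Agent.H373R2.T7`).
-/

set_option autoImplicit false

namespace Pool.Agent.Results.MP_0bfb7f_nt.BilinearShifts

open Finset

/-- The Möbius function on the integers, `0` at the integers `m ≤ 0`, with complex values. -/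
noncomputable def mob (m : ℤ) : ℂ := if 1 ≤ m then ((ArithmeticFunction.moebius m.toNat : ℤ) : ℂ) else 0

/-- The additive energy of order `h` of a finite family `x i` (`i ∈ ι`) of points of `ℤ ^ d`: the number of solutions
of `x (a 1) + ... + x (a h) = x (b 1) + ... + x (b h)`. -/
noncomputable def energy (h : ℕ) {ι : Type} {d : ℕ} (x : ι → Fin d → ℤ) : ℕ :=
  Nat.card {q : (Fin h → ι) × (Fin h → ι) // ∑ j, x (q.1 j) = ∑ j, x (q.2 j)}

/-- The family `f i + g j + κ (x i · y j)`. -/
def value {ι lam : Type} {d : ℕ} (κ : ℤ) (f : ι → ℤ) (g : lam → ℤ) (x : ι → Fin d → ℤ) (y : lam → Fin d → ℤ)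
    (p : ι × lam) : ℤ :=
  f p.1 + g p.2 + κ * ∑ k, x p.1 k * y p.2 k

/-- The number of the members `v i` of the family such that the correlation sum
`∑ n ≤ x, θ l n * Λ(n) * μ(n + v i)` is larger than `Δ` in absolute value for some `l` and some `x ≤ Z`. -/
noncomputable def exceptions (Z : ℕ) (Δ : ℝ) {L : ℕ} (θ : Fin L → ℕ → ℂ) {ι : Type} (v : ι → ℤ) : ℕ :=
  Nat.card {i : ι // ∃ l, ∃ x : ℕ, x ≤ Z ∧
    Δ < ‖∑ n ∈ Icc 1 x, θ l n * ((ArithmeticFunction.vonMangoldt n : ℝ) : ℂ) * mob (n + v i)‖}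

/-- Let `d ≥ 1`, `h ≥ 1`, `s ≥ 1`, `B`, `C`, `T`, `U` and `κ ≠ 0` be fixed. Let `X ≤ Y ^ s` and `Y ≤ X ^ s` be integers
with a large product `N = X Y`, let `x i` (`i ∈ ι`) be an arbitrary finite family of points of `ℤ ^ d` with coordinates
of absolute value at most `B X` and `y j` (`j ∈ lam`) an arbitrary finite family of points of `ℤ ^ d` with coordinates
of absolute value at most `B Y`, whose additive energies of order `h` are minimal up to a power of `log N`, and let `f`
and `g` be ARBITRARY functions on `ι` and `lam` such that `|f i + g j + κ (x i · y j)| ≤ B N` for all `i` and `j`. For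
each of at most `log ^ T N` indices `l` let `θ l` be an arbitrary function bounded by `1` (for example `θ l = 1`).

Then for all the pairs `(i, j)`, except for at most `#ι #lam / log ^ U N` of them, the shift
`z = f i + g j + κ (x i · y j)` satisfies `|∑ n ≤ x, θ l n * Λ(n) * μ(n + z)| ≤ N / log ^ U N` for all `l` and all
`x ≤ B N`. -/
theorem result (h B C T U d s : ℕ) (hh : 1 ≤ h) (hd : 1 ≤ d) (hs : 1 ≤ s) (κ : ℤ) (hκ : κ ≠ 0) :
    ∃ N₀ : ℕ, ∀ X Y : ℕ, N₀ ≤ X * Y → X ≤ Y ^ s → Y ≤ X ^ s →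
      ∀ (ι lam : Type) [Fintype ι] [Fintype lam] (x : ι → Fin d → ℤ) (y : lam → Fin d → ℤ) (f : ι → ℤ) (g : lam → ℤ),
      (∀ i k, |x i k| ≤ B * X) → (∀ j k, |y j k| ≤ B * Y) → (∀ p, |value κ f g x y p| ≤ B * (X * Y)) →
      (energy h x : ℝ) * X ^ d ≤ Real.log (X * Y) ^ C * (Fintype.card ι : ℝ) ^ (2 * h) →
      (energy h y : ℝ) * Y ^ d ≤ Real.log (X * Y) ^ C * (Fintype.card lam : ℝ) ^ (2 * h) →
      ∀ L : ℕ, (L : ℝ) ≤ Real.log (X * Y) ^ T → ∀ θ : Fin L → ℕ → ℂ, (∀ l n, ‖θ l n‖ ≤ 1) →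
      (exceptions (B * (X * Y)) (X * Y / Real.log (X * Y) ^ U) θ (value κ f g x y) : ℝ) ≤
        Fintype.card ι * Fintype.card lam / Real.log (X * Y) ^ U :=
  Pool.Agent.W5h80.Bil.mu_lam_bil h B C T U d s hh hd hs κ hκ

end Pool.Agent.Results.MP_0bfb7f_nt.BilinearShifts
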