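import Pool.Agent.W5h80.Bil.ML
import Pool.Agent.W5h23.SF.Level
import Pool.Agent.W5h23.SF.Poly

/-!
# The Möbius function and shifted primes: almost all shifts `c + ⌊F(m)⌋`, `F` smooth, and `c + F(m)`, `F` a polynomial

The exponential sum bound for the Möbius function (Davenport's theorem with arbitrary powers of the logarithm) and the energy
of polynomial values are from the starting files (`Pool.Agent.H807R2.Dav`, `Pool.Agent.H373R2.T7`, `Pool.Agent.TH212.PL`); the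
criterion for thin families is `MP_0bfb7f_nt.ThinFamilies` (helper80); the energy of the integer parts of smooth sequences
(van der Corput's method) is `Pool.Agent.W5h23.SF`.
-/

set_option autoImplicit false

namespace Pool.Agent.Results.MP_0bfb7f_nt.SmoothShifts

open Finset Polynomial

/-- The Möbius function on the integers, `0` at the integers `m ≤ 0`, with complex values. -/
noncomputable def mob (m : ℤ) : ℂ := if 1 ≤ m then ((ArithmeticFunction.moebius m.toNat : ℤ) : ℂ) else 0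

/-- The correlation sum `∑ n ≤ x, θ l n * Λ(n) * μ(n + y)` is at most `Δ` in absolute value for all `l` and all `x ≤ Z`. -/
def Small (Z : ℕ) (Δ : ℝ) {L : ℕ} (θ : Fin L → ℕ → ℂ) (y : ℤ) : Prop := ∀ l, ∀ x : ℕ, x ≤ Z →
  ‖∑ n ∈ Icc 1 x, θ l n * ((ArithmeticFunction.vonMangoldt n : ℝ) : ℂ) * mob (n + y)‖ ≤ Δ

/-- `F` varies on `[M, 2 M]` like a function of size `A` of the variable `t / M`: the functions `D j` are the successive
derivatives of `F = D 0`, and `c0 A ≤ |F⁽ʲ⁾(t)| M ^ j ≤ C0 A` for `1 ≤ j ≤ K`. -/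
def Smooth (K : ℕ) (c0 C0 M A : ℝ) (F : ℝ → ℝ) : Prop :=
  ∃ D : ℕ → ℝ → ℝ, D 0 = F ∧ (∀ j ≤ K, ∀ t ∈ Set.Icc M (2 * M), HasDerivAt (D j) (D (j + 1) t) t) ∧
    ∀ j, 1 ≤ j → j ≤ K → ∀ t ∈ Set.Icc M (2 * M), c0 * A ≤ |D j t| * M ^ j ∧ |D j t| * M ^ j ≤ C0 * A

open Classical in
/-- The number of the `m ∈ S` for which the shift `y m` does not have the property `Small`. -/
noncomputable def exceptions (Z : ℕ) (Δ : ℝ) {L : ℕ} (θ : Fin L → ℕ → ℂ) (S : Finset ℕ) (y : ℕ → ℤ) : ℕ :=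
  (S.filter (fun m => ¬ Small Z Δ θ (y m))).card

lemma exc_eq (Z : ℕ) (Δ : ℝ) {L : ℕ} (θ : Fin L → ℕ → ℂ) (S : Finset ℕ) (y : ℕ → ℤ) :
    exceptions Z Δ θ S y ≤ Nat.card {i : {m // m ∈ S} // Pool.Agent.W5h80.Bil.Large Z Δ θ (y i)} := by
  classical
  unfold exceptions
  rw [Nat.card_eq_fintype_card, Fintype.card_subtype]
  have h : S.filter (fun m => ¬ Small Z Δ θ (y m)) ⊆
      (univ.filter (fun i : {m // m ∈ S} => Pool.Agent.W5h80.Bil.Large Z Δ θ (y i))).image (fun i : {m // m ∈ S} => (i : ℕ)) := by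
    intro m hm
    rw [mem_filter] at hm
    rw [mem_image]
    refine ⟨⟨m, hm.1⟩, mem_filter.2 ⟨mem_univ _, ?_⟩, rfl⟩
    have h1 := hm.2
    unfold Small at h1
    push Not at h1
    exact h1
  exact (card_le_card h).trans card_image_le

lemma large_mono {Z Z' : ℕ} {Δ : ℝ} {L : ℕ} {θ : Fin L → ℕ → ℂ} {y : ℤ} (hZ : Z ≤ Z')
    (h : Pool.Agent.W5h80.Bil.Large Z Δ θ y) : Pool.Agent.W5h80.Bil.Large Z' Δ θ y := by
  obtain ⟨l, x, hx, h1⟩ := h
  exact ⟨l, x, hx.trans hZ, h1⟩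

lemma log_pow_le (D : ℕ) : ∃ N₀ : ℕ, ∀ N : ℕ, N₀ ≤ N → Real.log N ^ D ≤ N ∧ 0 < Real.log N := by
  have h1 := (isLittleO_log_rpow_rpow_atTop (D : ℝ) (show (0 : ℝ) < 1 by norm_num)).bound (show (0 : ℝ) < 1 by norm_num)
  have h2 := (tendsto_natCast_atTop_atTop (R := ℝ)).eventually h1
  obtain ⟨N₀, h3⟩ := Filter.eventually_atTop.1 (h2.and (Filter.eventually_ge_atTop 2))
  refine ⟨N₀, fun N hN => ?_⟩
  obtain ⟨h4, h5⟩ := h3 N hN
  have h6 : (2 : ℝ) ≤ N := by exact_mod_cast h5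
  have h7 : 0 < Real.log N := Real.log_pos (by linarith)
  refine ⟨?_, h7⟩
  rw [Real.rpow_natCast, Real.rpow_one, one_mul, Real.norm_eq_abs, Real.norm_eq_abs, abs_of_nonneg (by positivity),
    abs_of_nonneg (by positivity)] at h4
  exact h4

/-- **Almost all shifts of smooth and of polynomial families.** Let `B`, `D`, `T` and `U` be fixed.

(1) Let `Q ≥ 1`, `c0 > 0` and `C0 ≥ 1` be fixed, let `N` be large and let `F` be a function with
`c0 A ≤ |F⁽ʲ⁾(t)| M ^ j ≤ C0 A` for `1 ≤ j ≤ Q + 2` and `M ≤ t ≤ 2 M`, where `N / log ^ D N ≤ A ≤ M ^ Q`. Let `S ⊆ [M, 2 M)` be ANY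
set with at least `M / log ^ D N` elements and `c` any integer such that the shifts `c + ⌊F(m)⌋`, `m ∈ S`, are at most `B N`
in absolute value. For each of at most `log ^ T N` indices `l` let `θ l` be an arbitrary function bounded by `1` (for
example `θ l = 1`). Then for all but at most `#S / log ^ U N` of the `m ∈ S` the shift `y = c + ⌊F(m)⌋` satisfies
`|∑ n ≤ x, θ l n * Λ(n) * μ(n + y)| ≤ N / log ^ U N` for all `l` and all `x ≤ B N`. (`M` can be as small as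
`N ^ ((1 + ε) / Q)`.)

(2) Examples of such functions are `α t ^ s` for all real `α ≠ 0`, `s ≠ 0, 1, 2, …`, with `A = |α| M ^ s`, and `α log t`, with
`A = |α|` (`c0` and `C0` depend on `s` and the number of the derivatives only).

(3) The same for the shifts `c + F(m)`, `m ∈ S`, where `F` is a polynomial of degree `k ≥ 1` with integral coefficients,
`N = M ^ k`, `S ⊆ [1, M]` is any set with at least `M / log ^ D N` elements and `|c| ≤ B N`. -/
theorem result (B D T U : ℕ) :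
    (∀ (Q : ℕ) (c0 C0 : ℝ), 1 ≤ Q → 0 < c0 → 1 ≤ C0 → ∃ N₀ : ℕ, ∀ N : ℕ, N₀ ≤ N → ∀ (M : ℕ) (A : ℝ) (F : ℝ → ℝ),
      (N : ℝ) ≤ Real.log N ^ D * A → A ≤ (M : ℝ) ^ Q → Smooth (Q + 2) c0 C0 M A F →
      ∀ S : Finset ℕ, S ⊆ Ico M (2 * M) → (M : ℝ) ≤ Real.log N ^ D * S.card →
      ∀ c : ℤ, (∀ m ∈ S, |c + ⌊F m⌋| ≤ B * N) →
      ∀ L : ℕ, (L : ℝ) ≤ Real.log N ^ T → ∀ θ : Fin L → ℕ → ℂ, (∀ l n, ‖θ l n‖ ≤ 1) →
      (exceptions (B * N) (N / Real.log N ^ U) θ S (fun m => c + ⌊F m⌋) : ℝ) ≤ S.card / Real.log N ^ U) ∧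
    ((∀ (s : ℝ) (K : ℕ), (∀ k : ℕ, s ≠ k) → ∃ c0 C0 : ℝ, 0 < c0 ∧ 1 ≤ C0 ∧ ∀ M α : ℝ, 0 < M → α ≠ 0 →
        Smooth K c0 C0 M (|α| * M ^ s) (fun t => α * t ^ s)) ∧
      (∀ K : ℕ, ∃ c0 C0 : ℝ, 0 < c0 ∧ 1 ≤ C0 ∧ ∀ M α : ℝ, 0 < M → α ≠ 0 →
        Smooth K c0 C0 M |α| (fun t => α * Real.log t))) ∧
    (∀ F : ℤ[X], 1 ≤ F.natDegree → ∃ M₀ : ℕ, ∀ M : ℕ, M₀ ≤ M → ∀ N : ℕ, N = M ^ F.natDegree →
      ∀ S : Finset ℕ, S ⊆ Icc 1 M → (M : ℝ) ≤ Real.log N ^ D * S.card → ∀ c : ℤ, |c| ≤ B * N →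
      ∀ L : ℕ, (L : ℝ) ≤ Real.log N ^ T → ∀ θ : Fin L → ℕ → ℂ, (∀ l n, ‖θ l n‖ ≤ 1) →
      (exceptions (B * N) (N / Real.log N ^ U) θ S (fun m => c + F.eval (m : ℤ)) : ℝ) ≤ S.card / Real.log N ^ U) := by
  classical
  refine ⟨?_, ⟨fun s K hs => Pool.Agent.W5h23.SF.smooth_rpow s hs K, fun K => Pool.Agent.W5h23.SF.smooth_log K⟩, ?_⟩
  · intro Q c0 C0 hQ hc0 hC0
    obtain ⟨p, E, N1, hp, hen⟩ := Pool.Agent.W5h23.SF.energy_log Q hQ c0 C0 hc0 hC0 D
    obtain ⟨N2, h2⟩ := Pool.Agent.W5h80.Bil.mu_lam p B E T U hp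
    obtain ⟨N3, h3⟩ := log_pow_le D
    refine ⟨N1 + N2 + N3 + 1, fun N hN M A F hNA hAQ hF S hS hcard c hc L hL θ hθ => ?_⟩
    obtain ⟨hl1, hl2⟩ := h3 N (by omega)
    have hN0 : (0 : ℝ) < N := by exact_mod_cast (by omega : 0 < N)
    have hA1 : 1 ≤ A := by
      have h4 : Real.log N ^ D * 1 ≤ Real.log N ^ D * A := by rw [mul_one]; exact hl1.trans hNA
      exact le_of_mul_le_mul_left h4 (by positivity)
    have hM : 1 ≤ M := by
      rcases Nat.eq_zero_or_pos M with h | h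
      · subst h
        rw [Nat.cast_zero, zero_pow (by omega)] at hAQ
        linarith
      · exact h
    have hE := hen M N A F (by omega) hM hA1 hAQ hNA hF S hS hcard c
    have key := h2 N (by omega) {m // m ∈ S} (fun m : {m // m ∈ S} => c + ⌊F ((m : ℕ) : ℝ)⌋) (fun m => hc m m.2) hE L hL θ hθ
    have hcS : (Fintype.card {m // m ∈ S} : ℝ) = S.card := by simp
    rw [hcS] at key
    exact (Nat.cast_le.2 (exc_eq (B * N) (N / Real.log N ^ U) θ S (fun m => c + ⌊F m⌋))).trans key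
  · intro F hF
    obtain ⟨p, E, M1, hp, hen⟩ := Pool.Agent.W5h23.SF.energy_poly_log F hF D
    obtain ⟨N2, h2⟩ := Pool.Agent.W5h80.Bil.mu_lam p (B + Pool.Agent.TH212.PL.cf F) E T U hp
    refine ⟨M1 + N2 + 1, fun M hM N hN S hS hcard c hc L hL θ hθ => ?_⟩
    have hMN : M ≤ N := by rw [hN]; exact Nat.le_self_pow (by omega) M
    have hE := hen M (by omega) S hS (by rw [← hN]; exact hcard) c
    rw [← hN] at hE
    have key := h2 N (by omega) {m // m ∈ S} (fun m : {m // m ∈ S} => c + F.eval ((m : ℕ) : ℤ)) (by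
      intro m
      have h3 := Finset.mem_Icc.1 (hS m.2)
      have h4 := Pool.Agent.TH212.PL.abs_eval_le F m h3.1
      have h5 : ((m : ℕ) : ℤ) ^ F.natDegree ≤ N := by
        rw [hN]
        push_cast
        apply pow_le_pow_left₀ (by positivity)
        exact_mod_cast h3.2
      have h6 : (Pool.Agent.TH212.PL.cf F : ℤ) * ((m : ℕ) : ℤ) ^ F.natDegree ≤ Pool.Agent.TH212.PL.cf F * N :=
        mul_le_mul_of_nonneg_left h5 (by positivity)
      refine (abs_add_le _ _).trans ?_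
      push_cast
      linarith) hE L hL θ hθ
    have hcS : (Fintype.card {m // m ∈ S} : ℝ) = S.card := by simp
    rw [hcS] at key
    refine (Nat.cast_le.2 (exc_eq (B * N) (N / Real.log N ^ U) θ S (fun m => c + F.eval (m : ℤ)))).trans (le_trans ?_ key)
    apply Nat.cast_le.2
    refine Nat.card_le_card_of_injective (fun i => ⟨i.1, large_mono (Nat.mul_le_mul_right _ (by omega)) i.2⟩) ?_
    intro i j hij
    have := congrArg Subtype.val hij
    exact Subtype.ext this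

end Pool.Agent.Results.MP_0bfb7f_nt.SmoothShifts
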