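import Pool.Agent.W5h23.CP.ShMob

/-!
# Möbius and shifted primes after changing the sign of `μ` at few primes

For signs `s(p) ∈ {1, -1}` at the primes let `μ_s(n) = μ(n) ∏_{p ∣ n} s(p)`. We show:

1. If the `s(p) = X(p)` are independent random signs, `δ_p = P(X(p) = -1)`, and
`∑_{log log N < p ≤ log N} min(δ_p, 1 - δ_p)/p → ∞` (arbitrarily slowly), then almost surely
`∑_{n ≤ x} μ_X(n) Λ(n - 1) = o(x)`.
2. For every nondecreasing `ψ ≥ 0` with `ψ(n) - ψ((log n)³) → ∞` (for instance any iterated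
logarithm) there is a set `E` of primes with `∑_{p ∈ E, p ≤ x} 1/p ≤ ψ(x)` such that
`∑_{n ≤ x} μ_E(n) Λ(n - 1) = o(x)`, where `μ_E(n) = μ(n) (-1) ^ #{p ∈ E : p ∣ n}`.

In both cases the same holds for all the products `∏_i μ_s(n + h_i) ^ ε_i`, with distinct `h_i ≥ 0` and
`ε_i = 1` for some `i` with `h_i ≥ 1`, along the primes (a hybrid of the conjectures of
Hardy–Littlewood and Chowla).

Method: McDiarmid's inequality for the sum over primes (the influence of a prime `p` is `O(x/p)` by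
the Brun–Titchmarsh inequality), and the Turán–Kubilius inequality along shifted primes
(Siegel–Walfisz for moduli up to `(log x)²`) for the mean.
-/

set_option autoImplicit false

open MeasureTheory ProbabilityTheory Finset Filter Topology

namespace Pool.Agent.Results.MP_0bfb7f_nt.SparseSignChanges

/-- `μ_s(n) = μ(n) ∏_{p ∣ n} s(p)` -/
def muS (s : ℕ → ℤ) (n : ℕ) : ℤ := ArithmeticFunction.moebius n * ∏ p ∈ n.primeFactors, s p

/-- `∑_{n ≤ x} μ_s(n) Λ(n - 1) = o(x)` (the statement of the problem, with `μ_s` instead of `μ`), and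
`∑_{n ≤ x} Λ(n) ∏_i μ_s(n + h_i) ^ ε_i = o(x)` for all distinct `h_1, …, h_r ≥ 0` and exponents `ε_i`
with `ε_i = 1` for some `i` with `h_i ≥ 1`. -/
def Good (s : ℕ → ℤ) : Prop :=
  Tendsto (fun X : ℕ => (∑ n ∈ Icc 1 X,
    ((muS s n : ℤ) : ℝ) * ArithmeticFunction.vonMangoldt (n - 1)) / (X : ℝ)) atTop (𝓝 0) ∧
  ∀ (r : ℕ) (h : Fin r → ℕ), Function.Injective h → ∀ ε : Fin r → ℕ,
    (∃ i, ε i = 1 ∧ 1 ≤ h i) →
    Tendsto (fun N : ℕ => (∑ n ∈ Icc 1 N, ArithmeticFunction.vonMangoldt n * ∏ i : Fin r,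
      ((muS s (n + h i) : ℤ) : ℝ) ^ (ε i)) / (N : ℝ)) atTop (𝓝 0)

theorem good_of {s : ℕ → ℤ} (hs : ∀ (r : ℕ) (h : Fin r → ℕ), Function.Injective h →
      ∀ (ε : Fin r → ℕ), (∃ i, ε i = 1 ∧ 1 ≤ h i) →
      Tendsto (fun N : ℕ => (∑ n ∈ Icc 1 N, ArithmeticFunction.vonMangoldt n * ∏ i : Fin r,
        ((Pool.Agent.W5h23.CP.muX s (n + h i) : ℤ) : ℝ) ^ (ε i)) / (N : ℝ)) atTop (𝓝 0)) :
    Good s := by
  refine ⟨?_, hs⟩
  have h1 := hs 1 (fun _ => 1) (fun i j _ => Subsingleton.elim i j) (fun _ => 1)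
    ⟨0, rfl, le_rfl⟩
  have h2 := Pool.Agent.W5h23.CP.problem_form
    (f := fun n => ((Pool.Agent.W5h23.CP.muX s n : ℤ) : ℝ)) (h1.congr fun N => by simp)
  exact h2

/-- **Theorem.** (1) For independent random signs `X(p)` with
`∑_{log log N < p ≤ log N} min(δ_p, 1 - δ_p)/p → ∞`, `δ_p = P(X(p) = -1)`, almost surely `Good` holds.
(2) For every nondecreasing `ψ` with `ψ(0) ≥ 0` and `ψ(n) - ψ(⌊(log n)³⌋) → ∞` there are signs `s`
such that `Good s` holds and the set `E = {p : s(p) = -1}` consists of primes and has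
`∑_{p ∈ E, p ≤ x} 1/p ≤ ψ(x)` for all `x`. -/
theorem result :
    (∀ (Ω : Type) [MeasurableSpace Ω] (P : Measure Ω) [IsProbabilityMeasure P]
      (X : ℕ → Ω → ℤ), (∀ p, Measurable (X p)) → (∀ p ω, X p ω = 1 ∨ X p ω = -1) →
      iIndepFun (fun (p : Nat.Primes) => X (p : ℕ)) P →
      Tendsto (fun N : ℕ => ∑ p ∈ (Icc 1 ⌊Real.log N⌋₊).filter
        (fun p : ℕ => p.Prime ∧ Real.log (Real.log N) < (p : ℝ)),
          min (P.real {ω | X p ω = -1}) (1 - P.real {ω | X p ω = -1}) / p) atTop atTop →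
      ∀ᵐ ω ∂P, Good fun p => X p ω) ∧
    (∀ ψ : ℕ → ℝ, Monotone ψ → 0 ≤ ψ 0 →
      Tendsto (fun n : ℕ => ψ n - ψ ⌊Real.log n ^ 3⌋₊) atTop atTop →
      ∃ s : ℕ → ℤ, (∀ p, s p = 1 ∨ s p = -1) ∧ (∀ p, s p = -1 → p.Prime) ∧
        (∀ x : ℕ, ∑ p ∈ (Icc 1 x).filter (fun p => s p = -1), (1 : ℝ) / p ≤ ψ x) ∧ Good s) := by
  refine ⟨?_, ?_⟩
  · intro Ω _ P _ X hm hs hi hdiv
    filter_upwards [Pool.Agent.W5h23.CP.shifted ⟨hm, hs, hi⟩ hdiv] with ω hω
    exact good_of hω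
  · intro ψ hm h0 hψ
    obtain ⟨s, h1, h2, h3, h4⟩ := Pool.Agent.W5h23.CP.thin_shifted ψ hm h0 hψ
    exact ⟨s, h1, h2, h3, good_of h4⟩

end Pool.Agent.Results.MP_0bfb7f_nt.SparseSignChanges
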