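import Pool.Agent.W5h80.Bil.ML

/-!
# The Möbius function and shifted primes: almost all shifts in arbitrary thin families of nearly minimal additive energy

The exponential sum bound for the Möbius function (Davenport's theorem with arbitrary powers of the logarithm) is from
the starting files (`Pool.Agent.H807R2.Dav`, `Pool.Agent.H373R2.T7`).
-/

set_option autoImplicit false

namespace Pool.Agent.Results.MP_0bfb7f_nt.ThinFamilies

open Finset

/-- The Möbius function on the integers, `0` at the integers `m ≤ 0`, with complex values. -/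
noncomputable def mob (m : ℤ) : ℂ := if 1 ≤ m then ((ArithmeticFunction.moebius m.toNat : ℤ) : ℂ) else 0

/-- The additive energy of order `h` of a finite family `v i` (`i ∈ ι`) of integers: the number of solutions of
`v (a 1) + ... + v (a h) = v (b 1) + ... + v (b h)`. -/
noncomputable def energy (h : ℕ) {ι : Type} (v : ι → ℤ) : ℕ :=
  Nat.card {q : (Fin h → ι) × (Fin h → ι) // ∑ j, v (q.1 j) = ∑ j, v (q.2 j)}

/-- The number of the members `v i` of the family such that the correlation sum
`∑ n ≤ x, θ l n * Λ(n) * μ(n + v i)` is larger than `Δ` in absolute value for some `l` and some `x ≤ Z`. -/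
noncomputable def exceptions (Z : ℕ) (Δ : ℝ) {L : ℕ} (θ : Fin L → ℕ → ℂ) {ι : Type} (v : ι → ℤ) : ℕ :=
  Nat.card {i : ι // ∃ l, ∃ x : ℕ, x ≤ Z ∧
    Δ < ‖∑ n ∈ Icc 1 x, θ l n * ((ArithmeticFunction.vonMangoldt n : ℝ) : ℂ) * mob (n + v i)‖}

/-- Let `h ≥ 1`, `B`, `C`, `T` and `U` be fixed. Let `N` be large and let `v i` (`i ∈ ι`) be an arbitrary finite family
of integers of absolute value at most `B N` whose additive energy of order `h` is minimal up to a power of `log N`: it is
at most `log ^ C N * #ι ^ (2 h) / N`. For each of at most `log ^ T N` indices `l` let `θ l` be an arbitrary function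
bounded by `1` (for example `θ l = 1`). Then all the members `y` of the family, except for at most `#ι / log ^ U N` of
them, satisfy `|∑ n ≤ x, θ l n * Λ(n) * μ(n + y)| ≤ N / log ^ U N` for all `l` and all `x ≤ B N`. -/
theorem result (h B C T U : ℕ) (hh : 1 ≤ h) :
    ∃ N₀ : ℕ, ∀ N : ℕ, N₀ ≤ N → ∀ (ι : Type) [Fintype ι] (v : ι → ℤ), (∀ i, |v i| ≤ B * N) →
      (energy h v : ℝ) * N ≤ Real.log N ^ C * (Fintype.card ι : ℝ) ^ (2 * h) →
      ∀ L : ℕ, (L : ℝ) ≤ Real.log N ^ T → ∀ θ : Fin L → ℕ → ℂ, (∀ l n, ‖θ l n‖ ≤ 1) →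
      (exceptions (B * N) (N / Real.log N ^ U) θ v : ℝ) ≤ Fintype.card ι / Real.log N ^ U :=
  Pool.Agent.W5h80.Bil.mu_lam h B C T U hh

end Pool.Agent.Results.MP_0bfb7f_nt.ThinFamilies
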